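import Mathlib

set_option autoImplicit false

namespace Pool.Agent.Results.MP_9cfc50_lc.Bound

/-- a ground normal rule `head ← pos, ¬ neg` -/
structure Rule (α : Type) where
  head : α
  pos : Finset α
  neg : Finset α

variable {α : Type}

/-- `M` is a three-valued model of the reduct `P^I`; truth values `0, 1/2, 1` are `0, 1, 2 : Fin 3`,
and the value of a body is at least `t` iff all its literals have value at least `t` -/
def IsModel (P : Finset (Rule α)) (I M : α → Fin 3) : Prop :=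
  ∀ r ∈ P, ∀ t : Fin 3, (∀ b ∈ r.pos, t ≤ M b) → (∀ c ∈ r.neg, t ≤ (I c).rev) → t ≤ M r.head

/-- `I` is the least model of `P^I` in the truth order -/
def StablePartial (P : Finset (Rule α)) (I : α → Fin 3) : Prop := IsLeast {M | IsModel P I M} I

/-- information order -/
def LeK (I J : α → Fin 3) : Prop := ∀ a, I a ≠ 1 → J a = I a

/-- regular model: maximal stable three-valued model in the information order -/
def Regular (P : Finset (Rule α)) (I : α → Fin 3) : Prop :=
  StablePartial P I ∧ ∀ J, StablePartial P J → LeK I J → J = I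

/-- signed arc `u → v` of the atom dependency graph; `s = true` means negative -/
def Arc (P : Finset (Rule α)) (u v : α) (s : Bool) : Prop :=
  ∃ r ∈ P, r.head = v ∧ u ∈ (if s then r.neg else r.pos)

/-- `U` meets every even cycle -/
def MeetsEven (P : Finset (Rule α)) (U : Finset α) : Prop :=
  ∀ (k : ℕ) (v : Fin (k + 1) → α) (s : Fin (k + 1) → Bool), Function.Injective v →
    (∀ i, Arc P (v i) (v (i + 1)) (s i)) → Even (Finset.univ.filter fun i => s i = true).card →
    ∃ i, v i ∈ U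

/-- derivability in the Gelfond-Lifschitz reduct by `S` -/
inductive Der (P : Finset (Rule α)) (S : Set α) : α → Prop
  | step (r : Rule α) : r ∈ P → (∀ b ∈ r.pos, Der P S b) → (∀ c ∈ r.neg, c ∉ S) → Der P S r.head

lemma Der.anti {P : Finset (Rule α)} {S T : Set α} (h : S ⊆ T) {a : α} (ha : Der P T a) : Der P S a := by
  induction ha with
  | step r h1 _ h3 ih => exact Der.step r h1 ih fun c hc hs => h3 c hc (h hs)

lemma stable_iff (P : Finset (Rule α)) (I : α → Fin 3) : StablePartial P I ↔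
    (∀ a, I a = 2 ↔ Der P {c | I c ≠ 0} a) ∧ ∀ a, I a ≠ 0 ↔ Der P {c | I c = 2} a := by
  classical
  have up : ∀ M, IsModel P I M → (∀ a, Der P {c | I c ≠ 0} a → M a = 2) ∧
      ∀ a, Der P {c | I c = 2} a → M a ≠ 0 := by
    intro M hM
    constructor
    · intro a ha
      induction ha with
      | step r h1 _ h3 ih =>
        exact top_le_iff.1 (hM r h1 2 (fun b hb => (ih b hb).ge) fun c hc => by
          rw [not_not.1 (h3 c hc)]; decide)
    · intro a ha
      induction ha with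
      | step r h1 _ h3 ih =>
        exact Fin.pos_iff_ne_zero.1 (hM r h1 1 (fun b hb => Fin.pos_iff_ne_zero.2 (ih b hb)) fun c hc => by
          have : I c ≠ 2 := h3 c hc
          revert this; generalize I c = x; revert x; decide)
  have down : ∀ M : α → Fin 3, (∀ a, M a = 2 ↔ Der P {c | I c ≠ 0} a) →
      (∀ a, M a ≠ 0 ↔ Der P {c | I c = 2} a) → IsModel P I M := by
    intro M h1 h2 r hr t hb hc
    have ht : ∀ t : Fin 3, t = 0 ∨ t = 1 ∨ t = 2 := by decide
    rcases ht t with rfl | rfl | rfl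
    · exact Fin.zero_le _
    · refine Fin.pos_iff_ne_zero.2 ((h2 _).2 (Der.step r hr
        (fun b h => (h2 b).1 (Fin.pos_iff_ne_zero.1 (hb b h))) fun c h h' => ?_))
      have := hc c h
      rw [show I c = 2 from h'] at this
      exact absurd this (by decide)
    · refine ((h1 _).2 (Der.step r hr (fun b h => (h1 b).1 (top_le_iff.1 (hb b h))) fun c h h' => ?_)).ge
      have := hc c h
      have h' : I c ≠ 0 := h'
      revert this h'; generalize I c = x; revert x; decide
  constructor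
  · rintro ⟨h1, h2⟩
    have hsub : {c | I c = 2} ⊆ {c | I c ≠ 0} := fun c (h : I c = 2) => by simp [h]
    let M : α → Fin 3 := fun a => if Der P {c | I c ≠ 0} a then 2 else if Der P {c | I c = 2} a then 1 else 0
    have e1 : ∀ a, M a = 2 ↔ Der P {c | I c ≠ 0} a := fun a => by
      simp only [M]; split_ifs <;> simp [*]
    have e2 : ∀ a, M a ≠ 0 ↔ Der P {c | I c = 2} a := fun a => by
      simp only [M]; split_ifs with h h'
      exacts [by simp [h.anti hsub], by simp [h'], by simp [h']]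
    have h3 := h2 (down M e1 e2)
    exact ⟨fun a => ⟨fun h => (e1 a).1 (top_le_iff.1 (h.ge.trans (h3 a))), (up I h1).1 a⟩,
      fun a => ⟨fun h => (e2 a).1 fun h0 => h (le_antisymm (h0 ▸ h3 a) (Fin.zero_le _)), (up I h1).2 a⟩⟩
  · rintro ⟨h1, h2⟩
    refine ⟨down I h1 h2, fun M hM a => ?_⟩
    have a1 := fun h => (up M hM).1 a ((h1 a).1 h)
    have a2 := fun h => (up M hM).2 a ((h2 a).1 h)
    exact (by decide : ∀ x y : Fin 3, (x = 2 → y = 2) → (x ≠ 0 → y ≠ 0) → x ≤ y) _ _ a1 a2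

lemma join [Finite α] {P : Finset (Rule α)} {I J : α → Fin 3} (hI : StablePartial P I)
    (hJ : StablePartial P J) (h1 : ∀ a, I a = 2 → J a ≠ 0) :
    (∀ a, J a = 2 → I a ≠ 0) → ∃ K, StablePartial P K ∧ LeK I K ∧ LeK J K := by
  classical
  intro h2
  obtain ⟨i1, i2⟩ := (stable_iff P I).1 hI
  obtain ⟨j1, j2⟩ := (stable_iff P J).1 hJ
  let G : Set α → Set α := fun S => {a | Der P S a}
  have hG : ∀ {S T}, S ⊆ T → G T ⊆ G S := fun h a ha => Der.anti h ha
  let T0 : Set α := {a | I a = 2 ∨ J a = 2}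
  let Q : Set α := {a | I a ≠ 0 ∧ J a ≠ 0}
  have e0 : T0 ⊆ Q := by
    rintro a (h | h)
    exacts [⟨by simp [h], h1 a h⟩, ⟨h2 a h, by simp [h]⟩]
  have e1 : T0 ⊆ G Q := by
    rintro a (h | h)
    exacts [((i1 a).1 h).anti fun c hc => hc.1, ((j1 a).1 h).anti fun c hc => hc.2]
  have e2 : G T0 ⊆ Q := fun a ha =>
    ⟨(i2 a).2 (Der.anti (fun c hc => Or.inl hc) ha), (j2 a).2 (Der.anti (fun c hc => Or.inr hc) ha)⟩
  obtain ⟨T, ⟨t1, t2, t3⟩, hmax⟩ := (Set.toFinite {T | T0 ⊆ T ∧ T ⊆ G (G T) ∧ T ⊆ G T}).exists_maximal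
    ⟨T0, subset_rfl, e1.trans (hG e2), e1.trans (hG e0)⟩
  have hT : G (G T) = T := (hmax ⟨t1.trans t2, hG (hG t2), hG (hG t3)⟩ t2).antisymm t2
  let K : α → Fin 3 := fun a => if a ∈ T then 2 else if a ∈ G T then 1 else 0
  have k1 : ∀ a, K a = 2 ↔ a ∈ T := fun a => by simp only [K]; split_ifs <;> simp [*]
  have k2 : ∀ a, K a ≠ 0 ↔ a ∈ G T := fun a => by
    simp only [K]; split_ifs with h h'
    exacts [by simp [t3 h], by simp [h'], by simp [h']]
  have le : ∀ L : α → Fin 3, (∀ a, L a = 2 → a ∈ T0) → (∀ a, a ∈ Q → L a ≠ 0) → LeK L K := by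
    intro L l1 l2 a ha
    have a1 := fun h => (k1 a).2 (t1 (l1 a h))
    have a2 := fun h => l2 a (e2 (hG t1 ((k2 a).1 h)))
    revert ha a1 a2; generalize L a = x; generalize K a = y; revert x y; decide
  refine ⟨K, (stable_iff P K).2 ⟨fun a => ?_, fun a => ?_⟩, le I (fun a => Or.inl) fun a h => h.1,
    le J (fun a => Or.inr) fun a h => h.2⟩
  · rw [k1, show {c | K c ≠ 0} = G T from Set.ext k2]
    exact (Set.ext_iff.1 hT a).symm
  · rw [k2, show {c | K c = 2} = T from Set.ext k1]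
    rfl

lemma pred {P : Finset (Rule α)} {I J : α → Fin 3} (hI : StablePartial P I) (hJ : StablePartial P J)
    {a : α} (h1 : I a = 2) (h2 : J a = 0) :
    ∃ b, (I b = 2 ∧ J b = 0 ∧ Arc P b a false) ∨ (I b = 0 ∧ J b = 2 ∧ Arc P b a true) := by
  obtain ⟨i1, -⟩ := (stable_iff P I).1 hI
  obtain ⟨-, j2⟩ := (stable_iff P J).1 hJ
  obtain ⟨r, hr, hp, hn⟩ := (i1 a).1 h1
  by_contra hc
  refine (j2 _).2 (Der.step r hr (fun b hb => (j2 b).1 fun h => hc ⟨b, Or.inl ⟨(i1 b).2 (hp b hb), h,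
    r, hr, rfl, hb⟩⟩) fun c hc' h => hc ⟨c, Or.inr ⟨not_not.1 (hn c hc'), h, r, hr, rfl, hc'⟩⟩) h2

lemma cyc {β : Type} [Finite β] [Nonempty β] (f : β → β) :
    ∃ (k : ℕ) (v : Fin (k + 1) → β), Function.Injective v ∧ ∀ i, f (v (i + 1)) = v i := by
  obtain ⟨x, hx⟩ : (Function.periodicPts f).Nonempty := by
    obtain ⟨m, n, hne, h⟩ := Finite.exists_ne_map_eq_of_infinite fun n : ℕ => f^[n] (Classical.arbitrary β)
    wlog hlt : m < n generalizing m n
    · exact this n m hne.symm h.symm (by omega)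
    refine ⟨f^[m] (Classical.arbitrary β), n - m, by omega, ?_⟩
    rw [Function.IsPeriodicPt, Function.IsFixedPt, ← Function.iterate_add_apply, Nat.sub_add_cancel hlt.le, h]
  obtain ⟨k, hk⟩ := Nat.exists_eq_succ_of_ne_zero (Function.minimalPeriod_pos_of_mem_periodicPts hx).ne'
  refine ⟨k, fun i => f^[k - i] x, fun i j h => ?_, fun i => ?_⟩
  · have := Function.iterate_injOn_Iio_minimalPeriod (f := f) (x := x) (show k - i.val ∈ Set.Iio _ by
      simp [hk]) (show k - j.val ∈ Set.Iio _ by simp [hk]) h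
    exact Fin.ext (by omega)
  · rw [← Function.iterate_succ_apply' f]
    refine Fin.lastCases ?_ (fun i => ?_) i
    · rw [Fin.last_add_one]
      simp only [Fin.val_zero, Nat.sub_zero, Fin.val_last, Nat.sub_self, Function.iterate_zero_apply, ← hk]
      exact Function.iterate_minimalPeriod
    · rw [Fin.coeSucc_eq_succ]
      congr 1
      simp only [Fin.val_succ, Fin.val_castSucc]
      omega

theorem result (α : Type) [Finite α] (P : Finset (Rule α)) (U : Finset α) (hU : MeetsEven P U) :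
    {I | Regular P I}.ncard ≤ 2 ^ U.card := by
  classical
  have key : ∀ I J, Regular P I → Regular P J → (∀ u ∈ U, I u = 2 ↔ J u = 2) → I = J := by
    intro I J hI hJ h
    by_cases hD : Nonempty {a // (I a = 2 ∧ J a = 0) ∨ (I a = 0 ∧ J a = 2)}
    · have : ∀ a : {a // (I a = 2 ∧ J a = 0) ∨ (I a = 0 ∧ J a = 2)},
          ∃ b : {a // (I a = 2 ∧ J a = 0) ∨ (I a = 0 ∧ J a = 2)}, Arc P b.1 a.1 (I b.1 ≠ I a.1) := by
        rintro ⟨a, ⟨h1, h2⟩ | ⟨h1, h2⟩⟩
        · obtain ⟨b, ⟨h3, h4, h5⟩ | ⟨h3, h4, h5⟩⟩ := pred hI.1 hJ.1 h1 h2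
          exacts [⟨⟨b, Or.inl ⟨h3, h4⟩⟩, by simpa [h1, h3] using h5⟩,
            ⟨⟨b, Or.inr ⟨h3, h4⟩⟩, by simpa [h1, h3] using h5⟩]
        · obtain ⟨b, ⟨h3, h4, h5⟩ | ⟨h3, h4, h5⟩⟩ := pred hJ.1 hI.1 h2 h1
          exacts [⟨⟨b, Or.inr ⟨h4, h3⟩⟩, by simpa [h1, h4] using h5⟩,
            ⟨⟨b, Or.inl ⟨h4, h3⟩⟩, by simpa [h1, h4] using h5⟩]
      choose f hf using this
      obtain ⟨k, v, hv, hfv⟩ := cyc f
      obtain ⟨i, hi⟩ := hU k (fun i => (v i).1) (fun i => I (v i).1 ≠ I (v (i + 1)).1)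
        (Subtype.val_injective.comp hv) (fun i => by simpa only [hfv] using hf (v (i + 1))) (by
          rw [← ZMod.natCast_eq_zero_iff_even, Finset.card_filter]
          push_cast
          let g : Fin (k + 1) → ZMod 2 := fun i => if I (v i).1 = 2 then 1 else 0
          have e : ∀ i, (if decide (I (v i).1 ≠ I (v (i + 1)).1) = true then (1 : ZMod 2) else 0) =
              g (i + 1) - g i := by
            intro i
            rcases (v i).2 with ⟨h1, -⟩ | ⟨h1, -⟩ <;> rcases (v (i + 1)).2 with ⟨h2, -⟩ | ⟨h2, -⟩ <;>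
              simp only [g, h1, h2] <;> decide
          simp only [e]
          rw [Finset.sum_sub_distrib, sub_eq_zero]
          exact Fintype.sum_equiv (Equiv.addRight 1) _ _ fun _ => rfl)
      have := h _ hi
      rcases (v i).2 with ⟨h1, h2⟩ | ⟨h1, h2⟩ <;> simp [h1, h2] at this
    · obtain ⟨K, hK, h1, h2⟩ := join hI.1 hJ.1 (fun a h1 h2 => hD ⟨a, Or.inl ⟨h1, h2⟩⟩)
        (fun a h1 h2 => hD ⟨a, Or.inr ⟨h2, h1⟩⟩)
      rw [← hI.2 K hK h1, hJ.2 K hK h2]
  rw [← Finset.card_powerset, ← Set.ncard_coe_finset]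
  refine Set.ncard_le_ncard_of_injOn (fun I => U.filter fun u => I u = 2)
    (fun I _ => Finset.mem_coe.2 (Finset.mem_powerset.2 (Finset.filter_subset _ _))) (fun I hI J hJ h => key I J hI hJ fun u hu => ?_)
  simpa [hu] using Finset.ext_iff.1 h u

end Pool.Agent.Results.MP_9cfc50_lc.Bound
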